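import Pool.Agent.Lib.MP_5c318e_ag.S.APlu

/-! Function fields of one variable have a smooth model; a regular form on an elliptic curve. -/

set_option autoImplicit false

namespace Pool.Agent.Lib.MP_5c318e_ag

open Polynomial Algebra

variable {k K : Type} [Field k] [CharZero k] [Field K] [Algebra k K]

/-- a Dedekind domain of finite type over an algebraically closed field is smooth -/
theorem smooth_of_dedekind [IsAlgClosed k] (A : Type) [CommRing A] [IsDedekindDomain A]
    [Algebra k A] [FiniteType k A] (hA : ¬ IsField A) : Smooth k A := by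
  have fp : FinitePresentation k A := FinitePresentation.of_finiteType.1 inferInstance
  have key : ∀ (q : Ideal A) [q.IsMaximal], IsSmoothAt k q := fun q hq => by
    have q0 : q ≠ ⊥ := Ring.ne_bot_of_isMaximal_of_not_isField hq hA
    have dv := IsLocalization.AtPrime.isDiscreteValuationRing_of_dedekind_domain A q0
      (Localization.AtPrime q)
    obtain ⟨ϖ, hϖ⟩ := IsDiscreteValuationRing.exists_irreducible (Localization.AtPrime q)
    obtain ⟨⟨u, s⟩, rfl⟩ := IsLocalization.mk'_surjective q.primeCompl ϖ
    have hu : Ideal.span {algebraMap A (Localization.AtPrime q) u} =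
        IsLocalRing.maximalIdeal _ := by
      rw [hϖ.maximalIdeal_eq, ← IsLocalization.mk'_spec (Localization.AtPrime q) u s]
      exact Ideal.span_singleton_mul_right_unit (IsLocalization.map_units _ s) _
    have uq : u ∈ q := (IsLocalization.AtPrime.to_map_mem_maximal_iff (Localization.AtPrime q) q u).1
      (hu ▸ Ideal.subset_span rfl)
    have u0 : u ≠ 0 := fun e => hϖ.ne_zero (by simp [e])
    have ut : Transcendental k u := fun h => by
      obtain ⟨c, rfl⟩ := minpoly.mem_range_of_degree_eq_one k u
        (IsAlgClosed.degree_eq_one_of_irreducible k (minpoly.irreducible h.isIntegral))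
      exact hq.ne_top (q.eq_top_of_isUnit_mem uq
        ((IsUnit.mk0 c fun e => u0 (by simp [e])).map _))
    let _ : Algebra k[X] A := (aeval u).toRingHom.toAlgebra
    have : IsScalarTower k k[X] A := .of_algebraMap_eq fun c => by
      simp [RingHom.algebraMap_toAlgebra]
    have : FaithfulSMul k[X] A := (faithfulSMul_iff_algebraMap_injective _ _).2
      (transcendental_iff_injective.1 ut)
    have : FiniteType k[X] A := .of_restrictScalars_finiteType k _ _
    have : FinitePresentation k[X] A := FinitePresentation.of_finiteType.1 inferInstance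
    have : Module.Flat k[X] A := inferInstance
    let _ := Localization.AtPrime.algebraOfLiesOver (q.under k[X]) q
    have : IsUnramifiedAt k[X] q := by
      refine (isUnramifiedAt_iff_map_eq k[X] (q.under k[X]) q).2 ⟨?_, le_antisymm ?_ ?_⟩
      · have : Module.Finite k (A ⧸ q) :=
          letI := Ideal.Quotient.field q
          finite_of_finite_type_of_isJacobsonRing k (A ⧸ q)
        have : Module.Finite k q.ResidueField := .of_surjective
          (IsScalarTower.toAlgHom k (A ⧸ q) q.ResidueField).toLinearMap
          q.bijective_algebraMap_quotient_residueField.2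
        have : Algebra.IsAlgebraic (q.under k[X]).ResidueField q.ResidueField :=
          .tower_top (K := k) _
        have : CharZero (q.under k[X]).ResidueField :=
          charZero_of_injective_algebraMap (algebraMap k _).injective
        infer_instance
      · rw [Ideal.map_le_iff_le_comap]
        exact fun a ha => (IsLocalization.AtPrime.to_map_mem_maximal_iff _ q _).2 ha
      · rw [← hu, Ideal.span_singleton_le_iff_mem]
        have : algebraMap k[X] A X = u := by simp [RingHom.algebraMap_toAlgebra]
        rw [← this, ← IsScalarTower.algebraMap_apply]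
        exact Ideal.mem_map_of_mem _ (show algebraMap k[X] A X ∈ q from this ▸ uq)
    have : IsEtaleAt k[X] q := .of_isUnramifiedAt_of_flat q
    exact .comp k k[X] _
  refine ⟨smoothLocus_eq_univ_iff.1 (Set.eq_univ_of_forall fun p => ?_), fp⟩
  obtain ⟨q, hq, h⟩ := p.asIdeal.exists_le_maximal p.isPrime.ne_top
  exact isOpen_smoothLocus.stableUnderGeneralization
    ((PrimeSpectrum.le_iff_specializes p ⟨q, hq.isPrime⟩).1 h) (key q)

open scoped IntermediateField.algebraAdjoinAdjoin in
/-- the normalisation of the affine line -/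
theorem exists_chart [IsAlgClosed k] {t : K} (ht : Transcendental k t)
    [FiniteDimensional (IntermediateField.adjoin k {t}) K] : ∃ A : Subalgebra k K,
      (Smooth k A ∧ IsFractionRing A K) ∧ ∀ O : ValuationSubring K,
        (∀ c : k, algebraMap k K c ∈ O) → t ∈ O → ∀ a ∈ A, a ∈ O := by
  have e := Polynomial.algEquivOfTranscendental k t ht
  have : IsPrincipalIdealRing (adjoin k {t}) := .of_surjective e.toRingEquiv.toRingHom e.surjective
  have : CharZero (IntermediateField.adjoin k {t}) :=
    charZero_of_injective_algebraMap (algebraMap k _).injective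
  set C := integralClosure (adjoin k {t}) K
  have : IsDedekindDomain C :=
    IsIntegralClosure.isDedekindDomain (adjoin k {t}) (IntermediateField.adjoin k {t}) K C
  have : Module.Finite (adjoin k {t}) C :=
    IsIntegralClosure.finite (adjoin k {t}) (IntermediateField.adjoin k {t}) K C
  have : FiniteType k (adjoin k {t}) := .adjoin_of_finite (Set.finite_singleton t)
  let _ : Algebra k C := (C.restrictScalars k).algebra
  have : IsScalarTower k (adjoin k {t}) C := .of_algebraMap_eq fun _ => rfl
  have : FiniteType k (C.restrictScalars k) :=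
    FiniteType.trans (R := k) (S := adjoin k {t}) (A := C) inferInstance inferInstance
  have : IsDedekindDomain (C.restrictScalars k) := ‹IsDedekindDomain C›
  have fr : IsFractionRing C K :=
    integralClosure.isFractionRing_of_finite_extension (IntermediateField.adjoin k {t}) K
  refine ⟨C.restrictScalars k, ⟨smooth_of_dedekind _ fun h => ?_, fr⟩, fun O hk hO a ha => ?_⟩
  · exact Polynomial.not_isField k (e.toMulEquiv.isField
      (isField_of_isIntegral_of_isField (FaithfulSMul.algebraMap_injective (adjoin k {t}) C) h))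
  · let S : Subalgebra k K := ⟨O.toSubring.toSubsemiring, hk⟩
    have hle : adjoin k {t} ≤ S := adjoin_le (Set.singleton_subset_iff.2 hO)
    let f : adjoin k {t} →+* O := (Subalgebra.inclusion hle).toRingHom
    obtain ⟨p, p1, p2⟩ : IsIntegral (adjoin k {t}) a := ha
    obtain ⟨y, rfl⟩ := IsIntegrallyClosed.isIntegral_iff.1 (show IsIntegral O a from
      ⟨p.map f, p1.map f, by rw [eval₂_map]; exact p2⟩)
    exact y.2

/-- a function field of one variable has a smooth complete model -/
theorem curve_model [IsAlgClosed k] {t : K} (ht : Transcendental k t)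
    [FiniteDimensional (IntermediateField.adjoin k {t}) K] : SmoothModel k K := by
  have : FiniteDimensional (IntermediateField.adjoin k {t⁻¹}) K := by
    have e : IntermediateField.adjoin k {t⁻¹} = IntermediateField.adjoin k {t} :=
      le_antisymm (IntermediateField.adjoin_simple_le_iff.2
        (inv_mem (IntermediateField.mem_adjoin_simple_self k t)))
        (IntermediateField.adjoin_simple_le_iff.2
          (inv_mem_iff.1 (IntermediateField.mem_adjoin_simple_self k t⁻¹)))
    rwa [e]
  obtain ⟨A, a1, a2⟩ := exists_chart ht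
  obtain ⟨B, b1, b2⟩ := exists_chart (t := t⁻¹) fun h => ht (IsAlgebraic.inv_iff.1 h)
  refine ⟨2, ![A, B], Fin.forall_fin_two.2 ⟨a1, b1⟩, fun O hO => ?_⟩
  rcases O.mem_or_inv_mem t with h | h
  · exact ⟨0, a2 O hO h⟩
  · exact ⟨1, b2 O hO h⟩

theorem smooth_curve [IsAlgClosed k] {ι : Type} [Unique ι] {t : ι → K}
    (hK : (⊤ : IntermediateField k K).FG) (ht : IsTranscendenceBasis k t) : SmoothModel k K := by
  have := IntermediateField.fg_top_iff.1 hK
  have h := ht.isAlgebraic_field
  rw [Set.range_unique] at h
  have : EssFiniteType (IntermediateField.adjoin k {t default}) K := .of_comp k _ _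
  have : FiniteDimensional (IntermediateField.adjoin k {t default}) K :=
    Algebra.finite_of_essFiniteType_of_isAlgebraic
  exact curve_model (ht.1.transcendental default)

omit [CharZero k] in
/-- the form `dt / y` on `y ^ 2 = t ^ 3 - t` is regular at every valuation ring -/
theorem regI_ell [CharZero K] {ι : Type} [Unique ι] [DecidableEq ι] {d : ι → Derivation k K K}
    {t y : K} (hd : d default t = 1) (hy : y ^ 2 = t ^ 3 - t) (O : ValuationSubring K) :
    RegI d 1 (2 / y) O := by
  have J : ∀ f : K, Jac d (fun _ => f) = d default f := fun f => by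
    rw [Jac, Matrix.det_unique]
    rfl
  have sq : ∀ a : K, a ^ 2 ∈ O → a ∈ O := fun a ha => by
    rw [← O.valuation_le_one_iff] at ha ⊢
    rwa [map_pow, pow_le_one_iff two_ne_zero] at ha
  rcases eq_or_ne y 0 with rfl | y0
  · simpa using RegI.zero 1 O
  have e : 2 * y * d default y = 3 * t ^ 2 - 1 := by
    have := congrArg (d default) hy
    simp only [map_sub, Derivation.leibniz_pow, hd, smul_eq_mul, nsmul_eq_mul] at this
    push_cast at this
    linear_combination this
  by_cases ht : t ∈ O
  · have hy' : y ∈ O := sq y (hy ▸ sub_mem (pow_mem ht 3) ht)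
    have : 2 / y = 2 * (3 * t ^ 2 - 2) * d default y + -(9 * t * y) * d default t := by
      rw [div_eq_iff y0, hd]
      linear_combination -(3 * t ^ 2 - 2) * e + 9 * t * hy
    rw [this]
    refine RegI.add ⟨fun _ => y, fun _ => hy', _, ?_, by rw [J, pow_one]⟩
      ⟨fun _ => t, fun _ => ht, _, ?_, by rw [J, pow_one]⟩
    · exact mul_mem (ofNat_mem O 2) (sub_mem (mul_mem (ofNat_mem O 3) (pow_mem ht 2)) (ofNat_mem O 2))
    · exact neg_mem (mul_mem (mul_mem (ofNat_mem O 9) ht) hy')
  · have t0 : t ≠ 0 := fun h => ht (h ▸ zero_mem O)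
    have s1 : O.valuation (t⁻¹ ^ 2) < 1 := by
      rw [map_pow, map_inv₀]
      exact pow_lt_one₀ zero_le (inv_lt_one_of_one_lt₀
        (not_le.1 fun h => ht ((O.valuation_le_one_iff t).1 h))) two_ne_zero
    have hs : t⁻¹ ∈ O := (O.mem_or_inv_mem t).resolve_left ht
    have a1 : O.valuation (1 + t⁻¹ ^ 2) = 1 := O.valuation.map_one_add_of_lt s1
    have a2 : O.valuation (1 - t⁻¹ ^ 2) = 1 := O.valuation.map_one_sub_of_lt s1
    have n1 : 1 + t⁻¹ ^ 2 ≠ 0 := fun h => by rw [h] at a1; simp at a1
    have n2 : 1 - t⁻¹ ^ 2 ≠ 0 := fun h => by rw [h] at a2; simp at a2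
    have i1 : (1 + t⁻¹ ^ 2)⁻¹ ∈ O := (O.valuation_le_one_iff _).1 (by rw [map_inv₀, a1, inv_one])
    have i2 : (1 - t⁻¹ ^ 2)⁻¹ ∈ O := (O.valuation_le_one_iff _).1 (by rw [map_inv₀, a2, inv_one])
    have e2 : y ^ 2 = t ^ 3 * (1 - t⁻¹ ^ 2) := by
      rw [hy]
      field_simp
    refine ⟨fun _ => t / y, fun _ => sq _ ?_, -4 * (1 - t⁻¹ ^ 2) * (1 + t⁻¹ ^ 2)⁻¹,
      mul_mem (mul_mem (neg_mem (ofNat_mem O 4)) (sub_mem (one_mem O) (pow_mem hs 2))) i1, ?_⟩
    · have : (t / y) ^ 2 = t⁻¹ * (1 - t⁻¹ ^ 2)⁻¹ := by
        rw [div_pow, e2]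
        generalize 1 - t⁻¹ ^ 2 = a at n2
        field_simp
      exact this ▸ mul_mem hs i2
    · have e3 : d default y = (3 * t ^ 2 - 1) / (2 * y) := by
        rw [← e]
        field_simp
      have n3 : t ^ 2 + 1 ≠ 0 := fun h => n1 (by field_simp; linear_combination h)
      have e4 : (1 + t⁻¹ ^ 2)⁻¹ = t ^ 2 / (t ^ 2 + 1) := by field_simp
      rw [J, pow_one, Derivation.leibniz_div, hd, e3, e4]
      simp only [smul_eq_mul]
      field_simp
      linear_combination (4 * (3 * t ^ 2 - 1)) * hy

theorem plu_ell {ι : Type} [Unique ι] [DecidableEq ι] {d : ι → Derivation k K K} {z : ι → K}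
    (hd : Dual k z d) {y : K} (hy : y ^ 2 = z default ^ 3 - z default) :
    2 / y ≠ 0 ∧ Plu d 1 (2 / y) := by
  have : CharZero K := charZero_of_injective_algebraMap (algebraMap k K).injective
  refine ⟨div_ne_zero two_ne_zero fun h => ?_, fun O _ => regI_ell (by simp [hd.dual]) hy O⟩
  refine hd.basis.1.transcendental default ⟨X ^ 3 - X, fun e => ?_, by simp [← hy, h]⟩
  have := congrArg (Polynomial.coeff · 1) e
  simp at this

end Pool.Agent.Lib.MP_5c318e_ag
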